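import Mathlib
import Pool.Agent.GT63.Scheepers

set_option autoImplicit false

open Filter Topology Set Pool.Agent.GT63.Scheepers

namespace Pool.Agent.Results.MP_23a291_gt.UrysohnExample

/-- `𝒰` is a sequence of open covers of `X`. -/
def IsOpenCoverSeq (X : Type) [TopologicalSpace X] (𝒰 : ℕ → Set (Set X)) : Prop :=
  ∀ n, (∀ U ∈ 𝒰 n, IsOpen U) ∧ ⋃₀ 𝒰 n = univ

/-- `𝒱` is a selection from `𝒰`: each `𝒱 n` is a finite subset of `𝒰 n`. -/
def IsSelection {X : Type} (𝒰 𝒱 : ℕ → Set (Set X)) : Prop :=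
  ∀ n, 𝒱 n ⊆ 𝒰 n ∧ (𝒱 n).Finite

/-- Almost Scheepers: every finite set is contained in the closure of `⋃₀ 𝒱 n` for infinitely
many `n`. -/
def AlmostScheepers (X : Type) [TopologicalSpace X] : Prop :=
  ∀ 𝒰 : ℕ → Set (Set X), IsOpenCoverSeq X 𝒰 → ∃ 𝒱, IsSelection 𝒰 𝒱 ∧
    ∀ F : Set X, F.Finite → {n | F ⊆ closure (⋃₀ 𝒱 n)}.Infinite

/-- Weakly Scheepers: for every finite family of nonempty open sets there are infinitely many `n`
such that `⋃₀ 𝒱 n` meets all of them. -/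
def WeaklyScheepers (X : Type) [TopologicalSpace X] : Prop :=
  ∀ 𝒰 : ℕ → Set (Set X), IsOpenCoverSeq X 𝒰 → ∃ 𝒱, IsSelection 𝒰 𝒱 ∧
    ∀ 𝒢 : Set (Set X), 𝒢.Finite → (∀ U ∈ 𝒢, IsOpen U ∧ U.Nonempty) →
      {n | ∀ U ∈ 𝒢, (U ∩ ⋃₀ 𝒱 n).Nonempty}.Infinite

/-- Weakly Scheepers in the sense of Kocinac: there are a dense set `Y` and a selection such that
every finite subset of `Y` is contained in `⋃₀ 𝒱 n` for infinitely many `n`. -/
def WeaklyScheepersKocinac (X : Type) [TopologicalSpace X] : Prop :=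
  ∀ 𝒰 : ℕ → Set (Set X), IsOpenCoverSeq X 𝒰 → ∃ Y : Set X, Dense Y ∧ ∃ 𝒱, IsSelection 𝒰 𝒱 ∧
    ∀ F : Set X, F.Finite → F ⊆ Y → {n | F ⊆ ⋃₀ 𝒱 n}.Infinite

/-- There is a functionally Hausdorff space that is almost Scheepers and weakly Scheepers, but not
weakly Scheepers in the sense of Kocinac. -/
theorem result : ∃ (X : Type) (_ : TopologicalSpace X),
    (∀ x y : X, x ≠ y → ∃ f : X → ℝ, Continuous f ∧ f x ≠ f y) ∧
    AlmostScheepers X ∧ WeaklyScheepers X ∧ ¬ WeaklyScheepersKocinac X := by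
  refine ⟨Sp, top toK code, ?_, ?_, ?_, ?_⟩
  · intro x y hxy
    have hxy' : toK x ∉ ({toK y} : Set (ℕ × ℕ → OnePoint ℕ)) := hxy
    obtain ⟨f, hf, hfx, hfy⟩ := CompletelyRegularSpace.completely_regular (toK x) {toK y}
      isClosed_singleton hxy'
    let _ := top toK code
    refine ⟨fun z => (f (toK z) : ℝ), ?_, ?_⟩
    · exact (continuous_subtype_val.comp hf).comp (continuous_p toK code)
    · have h1 := hfy (mem_singleton (toK y))
      simp [hfx, h1]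
  · let _ := top toK code
    intro 𝒰 hU
    have h1 := fun n => finite_dense toK code dense_fibres (fun k => ⟨k, rfl⟩) (𝒰 n)
      (hU n).1 (hU n).2
    choose 𝒱 h𝒱 hfin hdense using h1
    refine ⟨𝒱, fun n => ⟨h𝒱 n, hfin n⟩, fun F _ => ?_⟩
    have : {n | F ⊆ closure (⋃₀ 𝒱 n)} = univ := by
      ext n
      simp [(hdense n).closure_eq]
    rw [this]
    exact infinite_univ
  · let _ := top toK code
    intro 𝒰 hU
    have h1 := fun n => finite_dense toK code dense_fibres (fun k => ⟨k, rfl⟩) (𝒰 n)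
      (hU n).1 (hU n).2
    choose 𝒱 h𝒱 hfin hdense using h1
    refine ⟨𝒱, fun n => ⟨h𝒱 n, hfin n⟩, fun 𝒢 _ h𝒢 => ?_⟩
    have : {n | ∀ U ∈ 𝒢, (U ∩ ⋃₀ 𝒱 n).Nonempty} = univ := by
      ext n
      simp only [mem_ofPred_eq, mem_univ, iff_true]
      intro U hUG
      exact (hdense n).inter_open_nonempty U (h𝒢 U hUG).1 (h𝒢 U hUG).2
    rw [this]
    exact infinite_univ
  · intro hK
    obtain ⟨Y, hY, 𝒱, hsel, hV⟩ := hK (fun n => range fun k : ℕ => {x | code x n ≤ k})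
      (fun n => covers toK code n)
    exact no_dense toK code dense_fibres Y hY 𝒱 hsel hV

end Pool.Agent.Results.MP_23a291_gt.UrysohnExample
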